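import Pool.Agent.H161R3.ORMain

set_option autoImplicit false

namespace Pool.Agent.Results.MP_075e78_co.TypicalMatchings

open Filter Topology

/-- The ordered graph `H` (on `Fin a` with its natural order) is contained in the ordered graph `G`:
there is an order preserving injection sending edges to edges. -/
def Contains {a b : ℕ} (H : SimpleGraph (Fin a)) (G : SimpleGraph (Fin b)) : Prop :=
  ∃ f : Fin a → Fin b, StrictMono f ∧ ∀ u v, H.Adj u v → G.Adj (f u) (f v)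

/-- Every red and blue colouring of the edges of the ordered complete graph on `N` vertices
(`R` is the graph of red edges, its complement the graph of blue edges)
contains a red copy of `G` or a blue copy of `H`. -/
def Arrows (N : ℕ) {a b : ℕ} (G : SimpleGraph (Fin a)) (H : SimpleGraph (Fin b)) : Prop :=
  ∀ R : SimpleGraph (Fin N), Contains G R ∨ Contains H Rᶜ

/-- The ordered Ramsey number of `G` and `H`, the least `N` with `Arrows N G H`, is at most the real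
number `x`: some `N ≤ x` satisfies `Arrows N G H`. -/
def RamseyLE {a b : ℕ} (G : SimpleGraph (Fin a)) (H : SimpleGraph (Fin b)) (x : ℝ) : Prop :=
  ∃ N : ℕ, (N : ℝ) ≤ x ∧ Arrows N G H

/-- Ordered matching: every vertex has exactly one neighbour. -/
def IsOrderedMatching {n : ℕ} (G : SimpleGraph (Fin n)) : Prop := ∀ v, ∃! w, G.Adj v w

/-- Interval chromatic number: the least `k` such that the vertex order can be cut into `k`
intervals, none of which contains both ends of an edge. -/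
noncomputable def intervalChromatic {n : ℕ} (G : SimpleGraph (Fin n)) : ℕ :=
  sInf {k : ℕ | ∃ c : Fin n → Fin k, Monotone c ∧ ∀ u v, G.Adj u v → c u ≠ c v}

/-- The ordered matchings on `n` vertices with interval chromatic number `k`. -/
def matchings (n k : ℕ) : Set (SimpleGraph (Fin n)) :=
  {G | IsOrderedMatching G ∧ intervalChromatic G = k}

/-- Those of them whose ordered Ramsey number versus the triangle is at most `x`. -/
def goodMatchings (n k : ℕ) (x : ℝ) : Set (SimpleGraph (Fin n)) :=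
  {G | G ∈ matchings n k ∧ RamseyLE G (⊤ : SimpleGraph (Fin 3)) x}

open Pool.Agent.H161R3.OR

/-- the graph of an involution -/
def toG {n : ℕ} (M : Fin n → Fin n) : SimpleGraph (Fin n) := SimpleGraph.fromRel fun u v => M u = v

lemma toG_adj {n : ℕ} {M : Fin n → Fin n} (hM : IsInv M) (u v : Fin n) :
    (toG M).Adj u v ↔ M u = v := by
  unfold toG
  rw [SimpleGraph.fromRel_adj]
  constructor
  · rintro ⟨-, h | h⟩
    · exact h
    · rw [← h, hM.1]
  · intro h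
    exact ⟨fun e => hM.2 u (by rw [h, e]), Or.inl h⟩

lemma toG_matching {n : ℕ} {M : Fin n → Fin n} (hM : IsInv M) : IsOrderedMatching (toG M) := by
  intro v
  refine ⟨M v, (toG_adj hM v _).2 rfl, fun w hw => ((toG_adj hM v w).1 hw).symm⟩

lemma exists_toG {n : ℕ} {G : SimpleGraph (Fin n)} (hG : IsOrderedMatching G) :
    ∃ M : Fin n → Fin n, IsInv M ∧ toG M = G := by
  choose M hM1 hM2 using hG
  have hI : IsInv M := by
    refine ⟨fun u => ?_, fun u e => ?_⟩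
    · exact (hM2 (M u) u (hM1 u).symm).symm
    · exact (hM1 u).ne e.symm
  refine ⟨M, hI, ?_⟩
  ext u v
  rw [toG_adj hI]
  constructor
  · rintro rfl; exact hM1 u
  · intro h; exact (hM2 u v h).symm

lemma toG_inj {n : ℕ} {M M' : Fin n → Fin n} (hM : IsInv M) (hM' : IsInv M') (h : toG M = toG M') :
    M = M' := by
  funext u
  have h1 : (toG M).Adj u (M u) := (toG_adj hM u _).2 rfl
  rw [h] at h1
  exact ((toG_adj hM' u _).1 h1).symm

lemma hasPart_iff {n : ℕ} {M : Fin n → Fin n} (hM : IsInv M) (j : ℕ) :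
    HasPart j M ↔ ∃ c : Fin n → Fin j, Monotone c ∧ ∀ u v, (toG M).Adj u v → c u ≠ c v := by
  constructor
  · rintro ⟨P, h1, h2, h3⟩
    refine ⟨fun u => ⟨P u, h2 u⟩, fun x y hxy => h1 hxy, fun u v huv e => ?_⟩
    rw [toG_adj hM] at huv
    have := congrArg Fin.val e
    simp only at this
    exact h3 u (by rw [huv]; exact this.symm)
  · rintro ⟨c, h1, h2⟩
    refine ⟨fun u => (c u).val, fun x y hxy => h1 hxy, fun u => (c u).2, fun u e => ?_⟩
    exact h2 u (M u) ((toG_adj hM u _).2 rfl) (Fin.ext e).symm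

lemma hasPart_mono {n : ℕ} {M : Fin n → Fin n} {i j : ℕ} (hij : i ≤ j) (h : HasPart i M) :
    HasPart j M := by
  obtain ⟨P, h1, h2, h3⟩ := h
  exact ⟨P, h1, fun u => (h2 u).trans_le hij, h3⟩

lemma chromatic_iff {n : ℕ} {M : Fin n → Fin n} (hM : IsInv M) (k : ℕ) (hk : 1 ≤ k) :
    intervalChromatic (toG M) = k ↔ HasPart k M ∧ ¬ HasPart (k - 1) M := by
  have hset : {k : ℕ | ∃ c : Fin n → Fin k, Monotone c ∧ ∀ u v, (toG M).Adj u v → c u ≠ c v} =
      {k : ℕ | HasPart k M} := by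
    ext j
    exact (hasPart_iff hM j).symm
  unfold intervalChromatic
  rw [hset]
  constructor
  · intro h
    have hne : {k : ℕ | HasPart k M}.Nonempty := by
      rw [Set.nonempty_iff_ne_empty]
      intro he
      rw [he, Nat.sInf_empty] at h
      omega
    have h1 := Nat.sInf_mem hne
    rw [h] at h1
    refine ⟨h1, ?_⟩
    exact Nat.notMem_of_lt_sInf (s := {k : ℕ | HasPart k M}) (by omega)
  · rintro ⟨h1, h2⟩
    have h3 : sInf {k : ℕ | HasPart k M} ≤ k := Nat.sInf_le h1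
    have h4 := Nat.sInf_mem (s := {k : ℕ | HasPart k M}) ⟨k, h1⟩
    rcases Nat.lt_or_ge (sInf {k : ℕ | HasPart k M}) k with h5 | h5
    · exact absurd (hasPart_mono (by omega) h4) h2
    · omega

lemma matchings_eq {N k : ℕ} (hk : 1 ≤ k) : matchings (N + 1) k = toG '' (EE N k : Set _) := by
  ext G
  constructor
  · rintro ⟨h1, h2⟩
    obtain ⟨M, hM, rfl⟩ := exists_toG h1
    refine ⟨M, ?_, rfl⟩
    simp only [EE, Finset.coe_filter, Finset.mem_univ, true_and, Set.mem_ofPred_eq]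
    exact ⟨hM, (chromatic_iff hM k hk).1 h2⟩
  · rintro ⟨M, hM, rfl⟩
    simp only [EE, Finset.coe_filter, Finset.mem_univ, true_and, Set.mem_ofPred_eq] at hM
    exact ⟨toG_matching hM.1, (chromatic_iff hM.1 k hk).2 hM.2⟩

lemma matchings_ncard {N k : ℕ} (hk : 1 ≤ k) : (matchings (N + 1) k).ncard = (EE N k).card := by
  rw [matchings_eq hk, Set.InjOn.ncard_image, Set.ncard_coe_finset]
  intro M hM M' hM' h
  simp only [EE, Finset.coe_filter, Finset.mem_univ, true_and, Set.mem_ofPred_eq] at hM hM'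
  exact toG_inj hM.1 hM'.1 h

lemma real_bound (k n R N : ℕ) (hR : 1 ≤ R) (hn : 1 ≤ n) (hnR : n < (R + 1) ^ 17)
    (h : N * R ≤ 6 * (k + 1) ^ 2 * (n * n)) :
    (N : ℝ) ≤ (12 * ((k : ℝ) + 1) ^ 2) * (n : ℝ) ^ (2 - 1 / 17 : ℝ) := by
  have hn0 : (0 : ℝ) < n := by exact_mod_cast hn
  have hy0 : (0 : ℝ) < (n : ℝ) ^ (1 / 17 : ℝ) := Real.rpow_pos_of_pos hn0 _
  have hy : (n : ℝ) ^ (1 / 17 : ℝ) ≤ 2 * R := by
    have h1 : (n : ℝ) ≤ (2 * (R : ℝ)) ^ 17 := by
      have h2 : n ≤ (2 * R) ^ 17 := hnR.le.trans (Nat.pow_le_pow_left (by omega) _)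
      exact_mod_cast h2
    have h3 : (n : ℝ) ^ (1 / 17 : ℝ) ≤ ((2 * (R : ℝ)) ^ 17) ^ (1 / 17 : ℝ) :=
      Real.rpow_le_rpow hn0.le h1 (by norm_num)
    have h4 : ((2 * (R : ℝ)) ^ 17) ^ (1 / 17 : ℝ) = 2 * R := by
      rw [← Real.rpow_natCast, ← Real.rpow_mul (by positivity)]
      norm_num
    rwa [h4] at h3
  rw [Real.rpow_sub hn0, Real.rpow_two]
  rw [mul_div_assoc', le_div_iff₀ hy0]
  have h5 : (N : ℝ) * R ≤ 6 * ((k : ℝ) + 1) ^ 2 * (n * n) := by exact_mod_cast h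
  calc (N : ℝ) * (n : ℝ) ^ (1 / 17 : ℝ) ≤ N * (2 * R) :=
        mul_le_mul_of_nonneg_left hy (Nat.cast_nonneg _)
    _ = 2 * (N * R) := by ring
    _ ≤ 2 * (6 * ((k : ℝ) + 1) ^ 2 * (n * n)) := by linarith
    _ = 12 * ((k : ℝ) + 1) ^ 2 * (n : ℝ) ^ 2 := by ring

lemma good_of_not_bad (k N : ℕ) (hk : 1 ≤ k) (hR : 1 ≤ rt (N + 1))
    (hbig : 96 * (k * k) * (k + 1) ^ 3 < rt (N + 1) ^ 2) (M : Fin (N + 1) → Fin (N + 1))
    (hM : M ∈ EE N k)
    (hΛ : ∀ d : ℤ, (LamSet M (rt (N + 1)) d).card ≤ (rt (N + 1) + 1) * rt (N + 1) ^ 3) :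
    toG M ∈ goodMatchings (N + 1) k
      ((12 * ((k : ℝ) + 1) ^ 2) * ((N + 1 : ℕ) : ℝ) ^ (2 - 1 / 17 : ℝ)) := by
  have hM' := hM
  simp only [EE, Finset.mem_filter, Finset.mem_univ, true_and] at hM'
  refine ⟨?_, ?_⟩
  · rw [matchings_eq hk]
    exact ⟨M, hM, rfl⟩
  · obtain ⟨N', h1, h2⟩ := good_ramsey k (N + 1) (rt (N + 1)) hR (rt_le _) hbig M hM'.1 hM'.2.1 hΛ
    refine ⟨N', real_bound k (N + 1) (rt (N + 1)) N' hR (Nat.succ_pos _) (rt_lt _) h1, fun G => ?_⟩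
    rcases h2 G with ⟨f, hf1, hf2⟩ | ⟨f, hf1, hf2⟩
    · left
      refine ⟨f, hf1, fun u v huv => ?_⟩
      rw [toG_adj hM'.1] at huv
      rw [← huv]
      exact hf2 u
    · right
      refine ⟨f, hf1, fun u v huv => ?_⟩
      rw [SimpleGraph.top_adj] at huv
      rw [SimpleGraph.compl_adj]
      exact ⟨fun e => huv (hf1.injective e), hf2 u v huv⟩

lemma card_le (k N : ℕ) (hk : 1 ≤ k) (hR : 1 ≤ rt (N + 1))
    (hbig : 96 * (k * k) * (k + 1) ^ 3 < rt (N + 1) ^ 2)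
    (A : Finset (Fin (N + 1) → Fin (N + 1)))
    (hA : ∀ M ∈ EE N k, M ∉ A → ∀ d : ℤ,
      (LamSet M (rt (N + 1)) d).card ≤ (rt (N + 1) + 1) * rt (N + 1) ^ 3) :
    (EE N k).card ≤ (goodMatchings (N + 1) k
      ((12 * ((k : ℝ) + 1) ^ 2) * ((N + 1 : ℕ) : ℝ) ^ (2 - 1 / 17 : ℝ))).ncard + A.card := by
  classical
  rw [← matchings_ncard hk, matchings_eq hk]
  have hsub : toG '' (EE N k : Set _) ⊆ goodMatchings (N + 1) k
      ((12 * ((k : ℝ) + 1) ^ 2) * ((N + 1 : ℕ) : ℝ) ^ (2 - 1 / 17 : ℝ)) ∪ toG '' (A : Set _) := by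
    rintro G ⟨M, hM, rfl⟩
    rw [Finset.mem_coe] at hM
    by_cases hMA : M ∈ A
    · exact Or.inr ⟨M, hMA, rfl⟩
    · left
      exact good_of_not_bad k N hk hR hbig M hM (hA M hM hMA)
  refine (Set.ncard_le_ncard hsub (Set.toFinite _)).trans ?_
  refine (Set.ncard_union_le _ _).trans ?_
  refine Nat.add_le_add_left ?_ _
  refine (Set.ncard_image_le (Set.toFinite _)).trans ?_
  rw [Set.ncard_coe_finset]

lemma ratio_le (E g a C R : ℕ) (hE : 0 < E) (hR : 1 ≤ R) (hcard : E ≤ g + a)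
    (hA : a * R ^ 2 ≤ C * E) : 1 - (C : ℝ) / (R : ℝ) ^ 2 ≤ (g : ℝ) / (E : ℝ) := by
  have hE' : (0 : ℝ) < E := by exact_mod_cast hE
  have hR0 : (0 : ℝ) < (R : ℝ) := by exact_mod_cast hR
  have hR' : (0 : ℝ) < (R : ℝ) ^ 2 := by positivity
  rw [le_div_iff₀ hE']
  have h1 : (E : ℝ) ≤ g + a := by exact_mod_cast hcard
  have h2 : (a : ℝ) * (R : ℝ) ^ 2 ≤ C * E := by exact_mod_cast hA
  have h3 : (a : ℝ) ≤ (C : ℝ) / (R : ℝ) ^ 2 * E := by
    rw [div_mul_eq_mul_div, le_div_iff₀ hR']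
    exact h2
  linarith

lemma step (k N C : ℕ) (hk : 2 ≤ k) (hN : 2 * k ≤ N) (hodd : N % 2 = 1)
    (hR : 96 * (k * k) * (k + 1) ^ 3 + 1 ≤ rt (N + 1))
    (hCB : ∀ A : Finset (Fin (N + 1) → Fin (N + 1)), (∀ M ∈ A, M ∈ EE N k ∧
      ∃ d : ℤ, (rt (N + 1) + 1) * rt (N + 1) ^ 3 < (LamSet M (rt (N + 1)) d).card) →
      A.card * rt (N + 1) ^ 2 ≤ C * (EE N k).card) :
    1 - (C : ℝ) / (rt (N + 1) : ℝ) ^ 2 ≤ ((goodMatchings (N + 1) k
      ((12 * ((k : ℝ) + 1) ^ 2) * ((N + 1 : ℕ) : ℝ) ^ (2 - 1 / 17 : ℝ))).ncard : ℝ) /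
      ((matchings (N + 1) k).ncard : ℝ) := by
  classical
  have hk1 : 1 ≤ k := le_trans (by norm_num) hk
  have hR1 : 1 ≤ rt (N + 1) := le_trans (Nat.le_add_left _ _) hR
  have hbig : 96 * (k * k) * (k + 1) ^ 3 < rt (N + 1) ^ 2 :=
    (Nat.lt_of_succ_le hR).trans_le (Nat.le_self_pow (by norm_num) _)
  rw [matchings_ncard hk1]
  exact ratio_le _ _ ((EE N k).filter fun M => ∃ d : ℤ, (rt (N + 1) + 1) * rt (N + 1) ^ 3 <
      (LamSet M (rt (N + 1)) d).card).card C (rt (N + 1)) (exact_pos hk hN hodd) hR1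
    (card_le k N hk1 hR1 hbig _ (fun M hM hMA d => by
      by_contra hd
      exact hMA (Finset.mem_filter.2 ⟨hM, d, not_le.1 hd⟩)))
    (hCB _ (fun M hM => Finset.mem_filter.1 hM))

/-- For every `k ≥ 2` there is a constant `C` such that the fraction of the ordered matchings on
`n = 2 m` vertices with interval chromatic number `k` whose ordered Ramsey number versus the triangle
is at most `C n ^ (2 - 1 / 17)` tends to `1`. -/
theorem result (k : ℕ) (hk : 2 ≤ k) : ∃ C : ℝ, Tendsto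
    (fun m : ℕ => ((goodMatchings (2 * m) k (C * ((2 * m : ℕ) : ℝ) ^ (2 - 1 / 17 : ℝ))).ncard : ℝ) /
      ((matchings (2 * m) k).ncard : ℝ)) atTop (𝓝 1) := by
  refine ⟨12 * ((k : ℝ) + 1) ^ 2, ?_⟩
  obtain ⟨C, B, hCB⟩ := bad_fraction k (by omega)
  have hrt : Tendsto (fun m : ℕ => (rt (2 * m) : ℝ)) atTop atTop := by
    refine tendsto_natCast_atTop_atTop.comp ?_
    rw [tendsto_atTop]
    intro b
    filter_upwards [eventually_ge_atTop (b ^ 17)] with m hm
    exact le_rt _ _ (hm.trans (Nat.le_mul_of_pos_left m (by norm_num)))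
  have hlow : Tendsto (fun m : ℕ => 1 - (C : ℝ) / (rt (2 * m) : ℝ) ^ 2) atTop (𝓝 1) := by
    have h1 : Tendsto (fun m : ℕ => (C : ℝ) / (rt (2 * m) : ℝ) ^ 2) atTop (𝓝 0) :=
      Tendsto.div_atTop tendsto_const_nhds ((tendsto_pow_atTop (by norm_num)).comp hrt)
    simpa using tendsto_const_nhds.sub h1
  refine tendsto_of_tendsto_of_tendsto_of_le_of_le' hlow tendsto_const_nhds ?_ ?_
  · have hev : ∀ᶠ m : ℕ in atTop, 96 * (k * k) * (k + 1) ^ 3 + 1 ≤ rt (2 * m) := by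
      have h := hrt.eventually_ge_atTop ((96 * (k * k) * (k + 1) ^ 3 + 1 : ℕ) : ℝ)
      filter_upwards [h] with m hm
      exact Nat.cast_le.1 hm
    filter_upwards [eventually_ge_atTop (B + 2 * k + 1), hev] with m hm1 hm2
    obtain ⟨N, hN⟩ : ∃ N, 2 * m = N + 1 := ⟨2 * m - 1, by omega⟩
    rw [hN] at hm2 ⊢
    exact step k N C hk (by omega) (by omega) hm2 (hCB N (by omega))
  · filter_upwards with m
    apply div_le_one_of_le₀ _ (Nat.cast_nonneg _)
    exact Nat.cast_le.2 (Set.ncard_le_ncard (fun G hG => hG.1) (Set.toFinite _))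

end Pool.Agent.Results.MP_075e78_co.TypicalMatchings
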